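import Pool.Agent.W295.NL.Stm

/-!
Project NL, part AX: existence of the edge values.
-/

set_option autoImplicit false

namespace Pool.Agent.W15.NL.AX

open Pool.Agent.W295.NL

theorem exU {q : ℕ} (n : ℕ) (hn : Even n) (half : ZMod q) (hh : 2 * half = 1)
    (g : ℕ → ZMod q) (hg : ∀ t, g (t + n) = - g t) :
    ∃ U : ℕ → ZMod q, (∀ t, U t + U (t + 1) = g t) ∧ ∀ t, U (t + n) = - U t := by
  let U0 : ℕ → ZMod q := fun t => Nat.rec (0 : ZMod q) (fun k x => g k - x) t
  have h0 : U0 0 = 0 := rfl
  have hs : ∀ t, U0 (t + 1) = g t - U0 t := fun _ => rfl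
  clear_value U0
  let u : ZMod q := - half * U0 n
  have hu : 2 * u = - U0 n := by
    change 2 * (- half * U0 n) = - U0 n
    linear_combination (- U0 n) * hh
  clear_value u
  have h1 : ∀ t, (U0 t + (-1) ^ t * u) + (U0 (t + 1) + (-1) ^ (t + 1) * u) = g t := by
    intro t
    rw [hs, pow_succ]
    ring
  refine ⟨fun t => U0 t + (-1) ^ t * u, h1, ?_⟩
  have hV : ∀ t, (U0 (t + n) + (-1) ^ (t + n) * u) + (U0 t + (-1) ^ t * u) = 0 := by
    intro t
    induction t with
    | zero =>
      rw [zero_add, h0, hn.neg_one_pow, pow_zero]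
      linear_combination hu
    | succ t ih =>
      have e1 := h1 t
      have e2 := h1 (t + n)
      rw [hg t] at e2
      rw [add_right_comm t 1 n]
      linear_combination e1 + e2 - ih
  intro t
  linear_combination hV t

theorem exA {q : ℕ} (n : ℕ) (hn : 0 < n) (G : ℕ → ZMod q) :
    ∃ A : ℕ → ZMod q, ∀ t, A (t + n) = A t + G t := by
  refine ⟨fun t => ∑ i ∈ Finset.range (t / n), G (t % n + n * i), fun t => ?_⟩
  simp only
  rw [Nat.add_div_right t hn, Nat.add_mod_right, Finset.sum_range_succ, Nat.mod_add_div]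

theorem main : Pool.Agent.W295.NL.S_AX := by
  intro n q hn hn0 hq κ F hκ hF
  obtain ⟨p, hp⟩ := hq
  have hq0 : (2 * (p : ZMod q) + 1) = 0 := by
    have : ((2 * p + 1 : ℕ) : ZMod q) = 0 := by
      rw [← hp]
      exact ZMod.natCast_self q
    push_cast at this
    exact this
  have hh : 2 * ((p : ZMod q) + 1) = 1 := by linear_combination hq0
  obtain ⟨U, hU1, hU2⟩ := exU n hn ((p : ZMod q) + 1) hh (fun t => F t - F (t + n)) (by
    intro t
    have := hF t
    rw [show t + n + n = t + 2 * n by ring, this]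
    ring)
  let w : ℕ → ZMod q := fun t => if κ t = 2 then -2 else 1
  have hw : ∀ t, w (t + n) = w t := by
    intro t
    change (if κ (t + n) = 2 then (-2 : ZMod q) else 1) = if κ t = 2 then -2 else 1
    rw [hκ t]
  obtain ⟨A, hA⟩ := exA n hn0 (fun t => U t + ((p : ZMod q) + 1) * w t)
  have hA2 : ∀ t, A (t + 2 * n) = A t + w t := by
    intro t
    rw [show t + 2 * n = t + n + n by ring, hA (t + n), hA t, hU2, hw]
    linear_combination (w t) * hh
  have hw2 : ∀ t, w (t + 2 * n) = w t := by
    intro t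
    rw [show t + 2 * n = t + n + n by ring, hw, hw]
  have hA3 : ∀ k t : ℕ, A (t + 2 * n * k) = A t + k * w t ∧ w (t + 2 * n * k) = w t := by
    intro k t
    induction k with
    | zero => simp
    | succ k ih =>
      obtain ⟨i1, i2⟩ := ih
      have e : t + 2 * n * (k + 1) = t + 2 * n * k + 2 * n := by ring
      rw [e, hA2, hw2, i1, i2]
      refine ⟨?_, rfl⟩
      push_cast
      ring
  have hA4 : ∀ t, A (t + n * q) = A t + U t := by
    intro t
    have e : t + n * q = (t + n) + 2 * n * p := by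
      rw [hp]
      ring
    rw [e, (hA3 p (t + n)).1, hA t, hw]
    linear_combination (w t) * hq0
  refine ⟨A, hA2, fun t => ?_⟩
  rw [hA4, hA4]
  have := hU1 t
  linear_combination this

end Pool.Agent.W15.NL.AX
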